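import Pool.Agent.Helper95.PM.Stmts
import Pool.Agent.Helper76.PW.PONb

/-!
# PM, row PONM: double commutator of the attraction of one nucleus, shell (centre `a`),
adapted from Helper76/PW/PON
-/

set_option autoImplicit false

namespace Pool.Agent.Helper12.PM

open MeasureTheory Filter Pool.Agent.Helper95.PW Pool.Agent.Helper76.PW

/-- as `pon_bound`, with the hypothesis on the gradient -/
theorem ponm_bound0 {e : ℝ} (he : 0 < e) {g : R3 → ℝ} {K r : ℝ} (hS : Scale g K r) (hr : 0 < r)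
    (hz : ∀ y, nr y < r → ∀ i, pd i g y = 0) (y : R3) :
    -(pon_dot g (pon_dot g (pon_w e)) y) ≤ 12 * K ^ 2 / r ^ 2 * (1 / nr y) := by
  have hK : 0 ≤ K := (abs_nonneg _).trans (hS.d1 0 y)
  have hn0 : 0 ≤ nr y := Real.sqrt_nonneg _
  by_cases hy : nr y < r
  · have h3 : pon_dot g (pon_dot g (pon_w e)) y = 0 := by
      unfold pon_dot
      apply Finset.sum_eq_zero
      intro j _
      rw [hz y hy j, zero_mul]
    rw [h3, neg_zero]
    positivity
  · have hy' : r ≤ nr y := not_lt.1 hy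
    have hn : 0 < nr y := by linarith
    rw [pon_dd he hS.sm y]
    set w := pon_w e y with hw
    have hwp : 0 < w := pon_w_pos he y
    have hwl : w ≤ 1 / nr y := pon_w_le hn
    have hA : ∑ j, pd j g y ^ 2 ≤ 3 * K ^ 2 := by
      calc ∑ j, pd j g y ^ 2 ≤ ∑ _j : Fin 3, K ^ 2 := by
            apply Finset.sum_le_sum
            intro j _
            have := hS.d1 j y
            rw [← sq_abs]
            exact pow_le_pow_left₀ (abs_nonneg _) this 2
        _ = _ := by simp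
    have hB : ∑ j, ∑ i, pd j g y * (y i * pd j (pd i g) y) ≤ 9 * (K * (nr y * (K / r))) := by
      calc ∑ j, ∑ i, pd j g y * (y i * pd j (pd i g) y)
          ≤ ∑ _j : Fin 3, ∑ _i : Fin 3, K * (nr y * (K / r)) := by
            apply Finset.sum_le_sum
            intro j _
            apply Finset.sum_le_sum
            intro i _
            refine (le_abs_self _).trans ?_
            rw [abs_mul, abs_mul]
            have h1 := hS.d1 j y
            have h2 := hS.d2 j i y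
            have h3 := pon_coord_le y i
            gcongr
        _ = _ := by simp; ring
    have h5 : 0 ≤ 3 * w ^ 5 * (∑ i, y i * pd i g y) ^ 2 := by positivity
    calc -(3 * w ^ 5 * (∑ i, y i * pd i g y) ^ 2 -
          w ^ 3 * (∑ j, pd j g y ^ 2 + ∑ j, ∑ i, pd j g y * (y i * pd j (pd i g) y)))
        ≤ w ^ 3 * (∑ j, pd j g y ^ 2 + ∑ j, ∑ i, pd j g y * (y i * pd j (pd i g) y)) := by
          linarith
      _ ≤ w ^ 3 * (3 * K ^ 2 + 9 * (K * (nr y * (K / r)))) := by gcongr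
      _ ≤ (1 / nr y) ^ 3 * (3 * K ^ 2 + 9 * (K * (nr y * (K / r)))) := by gcongr
      _ = (3 * K ^ 2 * (1 / nr y) ^ 2 + 9 * K ^ 2 / r * (1 / nr y)) * (1 / nr y) := by
          field_simp
      _ ≤ (3 * K ^ 2 * (1 / r) ^ 2 + 9 * K ^ 2 / r * (1 / r)) * (1 / nr y) := by
          gcongr
      _ = _ := by
          field_simp
          ring

/-- translation -/
def ponm_tr (a : R3) (f : R3 → ℝ) : R3 → ℝ := fun y => f (y - a)

theorem ponm_pd_tr (a : R3) (f : R3 → ℝ) (i : Fin 3) : pd i (ponm_tr a f) = ponm_tr a (pd i f) := by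
  funext y
  show fderiv ℝ (fun y => f (y - a)) y (Pi.single i 1) = fderiv ℝ f (y - a) (Pi.single i 1)
  rw [fderiv_comp_sub]

theorem ponm_tr_tr (a : R3) (f : R3 → ℝ) : ponm_tr a (ponm_tr (-a) f) = f := by
  funext y
  show f (y - a - -a) = f y
  rw [sub_neg_eq_add, sub_add_cancel]

theorem ponm_dot_tr (a : R3) (g f : R3 → ℝ) :
    pon_dot (ponm_tr a g) (ponm_tr a f) = ponm_tr a (pon_dot g f) := by
  funext y
  unfold pon_dot
  simp only [ponm_pd_tr]
  rfl

theorem ponm_smooth_tr (a : R3) {f : R3 → ℝ} (hf : ContDiff ℝ (⊤ : ℕ∞) f) :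
    ContDiff ℝ (⊤ : ℕ∞) (ponm_tr a f) :=
  hf.comp (contDiff_id.sub contDiff_const)

theorem ponm_scale_tr (a : R3) {g : R3 → ℝ} {K r : ℝ} (h : Scale g K r) :
    Scale (ponm_tr a g) K r := by
  refine ⟨ponm_smooth_tr a h.sm, ?_, ?_, ?_, ?_, ?_⟩
  · exact h.cs.comp_homeomorph (Homeomorph.subRight a)
  · intro i y
    rw [ponm_pd_tr]
    exact h.d1 _ _
  · intro i j y
    rw [ponm_pd_tr, ponm_pd_tr]
    exact h.d2 _ _ _
  · intro i j l y
    rw [ponm_pd_tr, ponm_pd_tr, ponm_pd_tr]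
    exact h.d3 _ _ _ _
  · intro i j l m y
    rw [ponm_pd_tr, ponm_pd_tr, ponm_pd_tr, ponm_pd_tr]
    exact h.d4 _ _ _ _ _

theorem ponm_bound {e : ℝ} (he : 0 < e) {g : R3 → ℝ} {K r : ℝ} (a : R3) (hS : Scale g K r)
    (hr : 0 < r) (hz : ∀ y, nr (y - a) < r → ∀ i, pd i g y = 0) (y : R3) :
    -(pon_dot g (pon_dot g (ponm_tr a (pon_w e))) y) ≤
      12 * K ^ 2 / r ^ 2 * (1 / nr (y - a)) := by
  have hg : g = ponm_tr a (ponm_tr (-a) g) := (ponm_tr_tr a g).symm
  have h1 : pon_dot g (pon_dot g (ponm_tr a (pon_w e))) =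
      ponm_tr a (pon_dot (ponm_tr (-a) g) (pon_dot (ponm_tr (-a) g) (pon_w e))) := by
    conv_lhs => rw [hg]
    rw [ponm_dot_tr, ponm_dot_tr]
  rw [h1]
  refine ponm_bound0 he (ponm_scale_tr (-a) hS) hr ?_ (y - a)
  intro z hz' i
  rw [ponm_pd_tr]
  show pd i g (z - -a) = 0
  apply hz
  rw [sub_neg_eq_add, add_sub_cancel_right]
  exact hz'

theorem ponm_w_smooth {e : ℝ} (he : 0 < e) (a : R3) :
    ContDiff ℝ (⊤ : ℕ∞) (ponm_tr a (pon_w e)) := ponm_smooth_tr a (pon_w_smooth he)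

noncomputable def ponm_W {n : ℕ} (a : R3) (e : ℝ) (x : Cf n) : ℝ := ∑ k, ponm_tr a (pon_w e) (x k)

noncomputable def ponm_A {n : ℕ} (a : R3) (x : Cf n) : ℝ := ∑ k, 1 / nr (x k - a)

theorem ponm_W_smooth {n : ℕ} {e : ℝ} (he : 0 < e) (a : R3) :
    ContDiff ℝ (⊤ : ℕ∞) (ponm_W a e : Cf n → ℝ) := by
  unfold ponm_W
  exact ContDiff.sum fun k _ => pon_comp_smooth (ponm_w_smooth he a) k

theorem ponm_nr_zero {y : R3} (h : nr y = 0) : y = 0 := by
  funext i
  have h1 := pon_coord_le y i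
  rw [h] at h1
  exact abs_nonpos_iff.1 h1

theorem ponm_ae (n : ℕ) (a : R3) : ∀ᵐ x : Cf n, ∀ k, 0 < nr (x k - a) := by
  rw [ae_all_iff]
  intro k
  have h1 : Measure.QuasiMeasurePreserving (Function.eval k)
      (volume : Measure (Cf n)) (volume : Measure R3) :=
    Measure.quasiMeasurePreserving_eval (fun _ : Fin n => (volume : Measure R3)) k
  have h2 : ∀ᵐ y : R3, y ≠ a := by
    rw [ae_iff]
    have : {b : R3 | ¬b ≠ a} = {a} := by ext; simp
    rw [this]
    exact measure_singleton a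
  have h3 := h1.ae h2
  filter_upwards [h3] with x hx
  have h0 : 0 ≤ nr (x k - a) := Real.sqrt_nonneg _
  refine lt_of_le_of_ne h0 fun h => hx ?_
  exact sub_eq_zero.1 (ponm_nr_zero h.symm)

theorem ponm_int (hINT : ST_INTM) {n : ℕ} (a : R3) {v w : Cf n → ℝ}
    (hv : ContDiff ℝ (⊤ : ℕ∞) v) (hvc : HasCompactSupport v)
    (hw : ContDiff ℝ (⊤ : ℕ∞) w) (hwc : HasCompactSupport w) :
    Integrable (fun x : Cf n => ponm_A a x * (v x * w x)) := by
  have h := (hINT n 1 (fun _ => a) (fun _ => 1) v w hv hvc hw hwc).1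
  refine h.congr (Eventually.of_forall fun x => ?_)
  show (∑ k, pot (fun _ : Fin 1 => a) (fun _ => 1) (x k)) * (v x * w x) = _
  unfold pot ponm_A
  simp

theorem ponm_lim (hINT : ST_INTM) {n : ℕ} (c : R3) {a b : Cf n → ℝ}
    (ha : ContDiff ℝ (⊤ : ℕ∞) a) (hac : HasCompactSupport a) (hb : ContDiff ℝ (⊤ : ℕ∞) b)
    (hbc : HasCompactSupport b) :
    Tendsto (fun j : ℕ => ∫ x, ponm_W c (1 / ((j : ℝ) + 1)) x * (a x * b x)) atTop
      (nhds (∫ x, ponm_A c x * (a x * b x))) := by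
  have hI := ponm_int hINT c ha hac hb hbc
  have hej : ∀ j : ℕ, 0 < 1 / ((j : ℝ) + 1) := fun j => by positivity
  refine tendsto_integral_of_dominated_convergence (fun x => ‖ponm_A c x * (a x * b x)‖) ?_
    hI.norm ?_ ?_
  · intro j
    exact ((ponm_W_smooth (hej j) c).continuous.mul
      (ha.continuous.mul hb.continuous)).aestronglyMeasurable
  · intro j
    filter_upwards [ponm_ae n c] with x hx
    rw [norm_mul, norm_mul (ponm_A c x)]
    refine mul_le_mul_of_nonneg_right ?_ (norm_nonneg _)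
    have h1 : 0 ≤ ponm_W c (1 / ((j : ℝ) + 1)) x :=
      Finset.sum_nonneg fun k _ => (pon_w_pos (hej j) (x k - c)).le
    have h2 : ponm_W c (1 / ((j : ℝ) + 1)) x ≤ ponm_A c x :=
      Finset.sum_le_sum fun k _ => pon_w_le (hx k)
    rw [Real.norm_eq_abs, Real.norm_eq_abs, abs_of_nonneg h1, abs_of_nonneg (h1.trans h2)]
    exact h2
  · filter_upwards [ponm_ae n c] with x hx
    refine Tendsto.mul_const _ ?_
    unfold ponm_W ponm_A
    refine tendsto_finsetSum _ fun k _ => ?_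
    set y : R3 := x k - c with hy
    have h1 : Tendsto (fun j : ℕ => (1 / ((j : ℝ) + 1)) ^ 2) atTop (nhds (0 ^ 2)) :=
      (tendsto_one_div_add_atTop_nhds_zero_nat (𝕜 := ℝ)).pow 2
    have h2 : Tendsto (fun j : ℕ => y 0 ^ 2 + y 1 ^ 2 + y 2 ^ 2 +
        (1 / ((j : ℝ) + 1)) ^ 2) atTop (nhds (y 0 ^ 2 + y 1 ^ 2 + y 2 ^ 2)) := by
      have := h1.const_add (y 0 ^ 2 + y 1 ^ 2 + y 2 ^ 2)
      simpa using this
    have h3 := ((Real.continuous_sqrt.tendsto _).comp h2).inv₀ (hx k).ne'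
    rw [one_div]
    exact h3

theorem ponm_e (hPAN : ST_PAN) (hINT : ST_INTM) {n : ℕ} {e : ℝ} (he : 0 < e) {g : R3 → ℝ}
    {K r : ℝ} (a : R3) (hS : Scale g K r) (hr : 0 < r)
    (hz : ∀ y, nr (y - a) < r → ∀ i, pd i g y = 0) {v : Cf n → ℝ}
    (hv : ContDiff ℝ (⊤ : ℕ∞) v) (hvc : HasCompactSupport v)
    (hP : ContDiff ℝ (⊤ : ℕ∞) (Pg g v)) (hPc : HasCompactSupport (Pg g v)) :
    -((∫ x, ponm_W a e x * (Pg g v x * Pg g v x)) +
      ∫ x, ponm_W a e x * (Pg g (Pg g v) x * v x)) ≤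
      6 * K ^ 2 / r ^ 2 * ∫ x, ponm_A a x * v x ^ 2 := by
  have hid := pon_id hPAN hS.sm (ponm_W_smooth (n := n) he a) hv hvc hP hPc
  have h1 : ∀ x : Cf n, ponm_W a e x * (Pg g v x * Pg g v x) = ponm_W a e x * (Pg g v x) ^ 2 := by
    intro x; ring
  simp only [h1]
  rw [hid]
  have h2 : pon_D g (pon_D g (ponm_W a e : Cf n → ℝ)) =
      fun x : Cf n => ∑ j, pon_dot g (pon_dot g (ponm_tr a (pon_w e))) (x j) := by
    have h3 : pon_D g (ponm_W a e : Cf n → ℝ) =
        fun x : Cf n => ∑ j, pon_dot g (ponm_tr a (pon_w e)) (x j) :=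
      pon_D_sum g (ponm_w_smooth he a)
    rw [h3]
    exact pon_D_sum g (pon_dot_smooth hS.sm (ponm_w_smooth he a))
  rw [h2, ← integral_const_mul, ← integral_const_mul, ← integral_neg]
  have hdd := pon_dot_smooth hS.sm (pon_dot_smooth hS.sm (ponm_w_smooth he a))
  refine integral_mono ?_ ?_ ?_
  · refine ((Continuous.integrable_of_hasCompactSupport
      (f := fun x : Cf n => (∑ j, pon_dot g (pon_dot g (ponm_tr a (pon_w e))) (x j)) * v x ^ 2)
      ?_ ?_).const_mul (1 / 2)).neg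
    · exact (ContDiff.sum fun k _ => pon_comp_smooth hdd k).continuous.mul (hv.continuous.pow 2)
    · have : (fun x : Cf n =>
            (∑ j, pon_dot g (pon_dot g (ponm_tr a (pon_w e))) (x j)) * v x ^ 2) =
          fun x => ((∑ j, pon_dot g (pon_dot g (ponm_tr a (pon_w e))) (x j)) * v x) * v x := by
        funext x; ring
      rw [this]
      exact hvc.mul_left
  · have := (ponm_int hINT a hv hvc hv hvc).const_mul (6 * K ^ 2 / r ^ 2)
    refine this.congr (Eventually.of_forall fun x => ?_)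
    show 6 * K ^ 2 / r ^ 2 * (ponm_A a x * (v x * v x)) =
      6 * K ^ 2 / r ^ 2 * (ponm_A a x * v x ^ 2)
    ring
  · intro x
    show -(1 / 2 * ((∑ j, pon_dot g (pon_dot g (ponm_tr a (pon_w e))) (x j)) * v x ^ 2)) ≤
      6 * K ^ 2 / r ^ 2 * (ponm_A a x * v x ^ 2)
    have h4 : ∑ j, -(pon_dot g (pon_dot g (ponm_tr a (pon_w e))) (x j)) ≤
        12 * K ^ 2 / r ^ 2 * ponm_A a x := by
      unfold ponm_A
      rw [Finset.mul_sum]
      exact Finset.sum_le_sum fun j _ => ponm_bound he a hS hr hz (x j)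
    rw [Finset.sum_neg_distrib] at h4
    have h5 : 0 ≤ v x ^ 2 := sq_nonneg _
    calc -(1 / 2 * ((∑ j, pon_dot g (pon_dot g (ponm_tr a (pon_w e))) (x j)) * v x ^ 2))
        = 1 / 2 * (-(∑ j, pon_dot g (pon_dot g (ponm_tr a (pon_w e))) (x j))) * v x ^ 2 := by
          ring
      _ ≤ 1 / 2 * (12 * K ^ 2 / r ^ 2 * ponm_A a x) * v x ^ 2 := by gcongr
      _ = _ := by ring

theorem st_PONM (hPAN : ST_PAN) (hSTB : ST_STB) (hINT : ST_INTM) (_hHA3 : ST_HA3) :
    ST_PONM := by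
  refine ⟨6, by norm_num, fun n g K r a u hS hr hz hu => ?_⟩
  have hP1 := (hSTB n g u hS.sm hu).2.1
  have hP2 := (hSTB n g (fun s => Pg g (u s)) hS.sm hP1).2.1
  have key : ∀ s, -((∫ x, ponm_A a x * (Pg g (u s) x * Pg g (u s) x)) +
      ∫ x, ponm_A a x * (Pg g (Pg g (u s)) x * u s x)) ≤
      6 * K ^ 2 / r ^ 2 * ∫ x, ponm_A a x * u s x ^ 2 := by
    intro s
    have h1 := ponm_lim hINT a (hP1 s).1 (hP1 s).2 (hP1 s).1 (hP1 s).2
    have h2 := ponm_lim hINT a (hP2 s).1 (hP2 s).2 (hu s).1 (hu s).2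
    refine le_of_tendsto' (h1.add h2).neg fun j => ?_
    exact ponm_e hPAN hINT (by positivity) a hS hr hz (hu s).1 (hu s).2 (hP1 s).1 (hP1 s).2
  unfold one
  rw [← Finset.sum_add_distrib, ← Finset.sum_neg_distrib, Finset.mul_sum]
  refine Finset.sum_le_sum fun s _ => ?_
  have h3 := key s
  have h4 : ∀ x : Cf n, ponm_A a x * (Pg g (u s) x * Pg g (u s) x) =
      (∑ k, 1 / nr (x k - a)) * (Pg g (u s) x) ^ 2 := by
    intro x
    unfold ponm_A
    ring
  simp only [h4] at h3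
  exact h3

end Pool.Agent.Helper12.PM
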